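import Pool.Agent.V7H85.BS.Fin
import Pool.Agent.V7H58.BS.GD
import Pool.Agent.V7H24.BS.FOU
import Pool.Agent.V7H34.BS.ONE
import Pool.Agent.V7H66.BS.CNTFinal

/-!
# Q2: the second identity holds for all odd `n` and all `k` coprime to `n`

`∑_{x ≠ 0} (-1)^{Tr(x + 1/x)} = ∑_{v ≠ 0} (-1)^{Tr(R_k(v))}` with
`R_k(v) = (v^{2^k} + 1) v^{2^k} / (v^{2^k} + v)^{2^k+1}`.

Proof: put `q = |F|`, `χ(x) = (-1)^{Tr x}`, `G(a) = #{r : r^3 + r = a} - 1` and let `σ` be the
`2^k`-th power map. Expanding the condition `q' = 1/(v + σ v)` in characters turns the right side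
into `2 + ∑_{x ≠ 0} χ(1/x) N(x σ x)`, where `N(a)` is the number of `g` with `(g, σ g)` on the conic
`g^2 + h^2 + a g h + a^2 = 0`; parametrizing the conic by a torus gives `N(a) = 2 + G(a)` for
`a ≠ 0`. So the right side is `∑_{x ≠ 0} χ(1/x) G(x σ x)`. Let `V` have the basis
`F^* ∪ {0, 1, 2}`. There is a family of explicit matrices `K_z` (`z ≠ 0, 1`) on `V` extending
`- χ(1/y) ∑_{d^2 + d = 1 + 1/x + 1/y + 1/z} G(x y z d^2)`, which commute with each other, are
Hermitian up to a scalar, map the basis vector `2` to a multiple of the basis vector `z`, and are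
permuted by `σ`. A trace argument on the submodule generated by the basis vector `2` shows that
`∑_{x ≠ 0} χ(1/x) G(x σ x)` is the same for all generators `σ` of the Galois group, so it is
enough to treat `k = 1`, where the identity is a substitution.
-/

set_option autoImplicit false

namespace Pool.Agent.Results.MP_2c585b_nt.KloostermanIdentityH85

open Finset
open Pool.Agent.R478.BES Pool.Agent.V7H85.BS
open Pool.Agent.Results.MP_2c585b_nt.GoldInverseSum (chi chi_apply chi_ne_one chi_equiv)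

variable {F : Type} [Field F] [Fintype F] [DecidableEq F] [Algebra (ZMod 2) F]

omit [DecidableEq F] in
theorem chi_one (n : ℕ) (hn : Odd n) (hF : Fintype.card F = 2 ^ n) : chi F 1 = -1 := by
  have h1 : Module.finrank (ZMod 2) F = n := by
    have h := Module.card_eq_pow_finrank (K := ZMod 2) (V := F)
    rw [hF, ZMod.card] at h
    exact (Nat.pow_right_injective le_rfl h).symm
  have h2 : Algebra.trace (ZMod 2) F 1 = 1 := by
    have h := Algebra.trace_algebraMap (R := ZMod 2) (S := F) 1
    rw [map_one, h1] at h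
    rw [h]
    obtain ⟨m, rfl⟩ := hn
    have h3 : (2 : ZMod 2) = 0 := rfl
    rw [nsmul_eq_mul]
    push_cast
    rw [h3]
    ring
  rw [chi_apply, h2]
  have h4 : (1 : ZMod 2).val = 1 := rfl
  rw [h4]
  norm_num

omit [DecidableEq F] in
theorem chi_sq [CharP F 2] (x : F) : chi F (x ^ 2) = chi F x := by
  have h := chi_equiv (F := F) (iterateFrobeniusEquiv F 2 1) x
  rw [iterateFrobeniusEquiv_def, pow_one] at h
  exact h

omit [DecidableEq F] [Algebra (ZMod 2) F] in
theorem hpow [CharP F 2] (j : ℕ) (x : Fˣ) :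
    ((uu (iterateFrobeniusEquiv F 2 j) x : Fˣ)) = x ^ 2 ^ j := by
  ext
  rw [coe_uu, iterateFrobeniusEquiv_def]
  simp

omit [Algebra (ZMod 2) F] in
theorem hpi (n k : ℕ) [CharP F 2] (hF : Fintype.card F = 2 ^ n) (hk : Nat.Coprime k n)
    (f : Fˣ → ℂ) : f ∘ uu (iterateFrobeniusEquiv F 2 k) = f ↔
      f ∘ uu (iterateFrobeniusEquiv F 2 1) = f := by
  by_cases hn : 1 < n
  · have hFx : ∀ x : Fˣ, x ^ 2 ^ n = x := by
      intro x
      ext
      rw [Units.val_pow_eq_pow_val, ← hF, FiniteField.pow_card]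
    have hFm : ∀ (m : ℕ) (x : Fˣ), x ^ 2 ^ (n * m) = x := by
      intro m
      induction m with
      | zero => intro x; simp
      | succ m ih =>
        intro x
        rw [Nat.mul_succ, pow_add, pow_mul, ih, hFx]
    constructor
    · intro h
      have h1 : ∀ (m : ℕ) (x : Fˣ), f (x ^ 2 ^ (k * m)) = f x := by
        intro m
        induction m with
        | zero => intro x; simp
        | succ m ih =>
          intro x
          have h2 := congrFun h (x ^ 2 ^ (k * m))
          simp only [Function.comp_apply, hpow] at h2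
          rw [Nat.mul_succ, pow_add, pow_mul, h2, ih]
      obtain ⟨m, -, hm⟩ := Nat.exists_mul_mod_eq_one_of_coprime hk hn
      have h3 : k * m = n * (k * m / n) + 1 := by
        have := Nat.div_add_mod (k * m) n
        omega
      funext x
      simp only [Function.comp_apply, hpow]
      have h4 := h1 m x
      rw [h3, pow_add, pow_mul, hFm] at h4
      exact h4
    · intro h
      have h1 : ∀ (m : ℕ) (x : Fˣ), f (x ^ 2 ^ m) = f x := by
        intro m
        induction m with
        | zero => intro x; simp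
        | succ m ih =>
          intro x
          have h2 := congrFun h (x ^ 2 ^ m)
          simp only [Function.comp_apply, hpow, pow_one] at h2
          rw [pow_succ, pow_mul, h2, ih]
      funext x
      simp only [Function.comp_apply, hpow]
      exact h1 k x
  · have h1 : Fintype.card Fˣ ≤ 1 := by
      rw [Fintype.card_units, hF]
      have h2 : n ≤ 1 := by omega
      have h3 := Nat.pow_le_pow_right (n := 2) (by norm_num) h2
      omega
    have : Subsingleton Fˣ := Fintype.card_le_one_iff_subsingleton.1 h1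
    constructor
    · intro _
      funext x
      exact congrArg f (Subsingleton.elim _ _)
    · intro _
      funext x
      exact congrArg f (Subsingleton.elim _ _)

omit [Algebra (ZMod 2) F] in
theorem G_equiv [CharP F 2] {e : AddChar F ℂ} {G : F → ℂ} (hG : GData e G) (j : ℕ) (x : F) :
    G (iterateFrobeniusEquiv F 2 j x) = G x := by
  rw [iterateFrobeniusEquiv_def]
  induction j generalizing x with
  | zero => simp
  | succ j ih => rw [pow_succ, pow_mul, hG.g4, ih]

/-- the sum of the inverses. -/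
theorem sum_inv : ∑ x : Fˣ, chi F (x : F)⁻¹ = -1 := by
  have h1 : ∑ x : F, chi F x = 0 := AddChar.sum_eq_zero_of_ne_one chi_ne_one
  have h2 : ∑ x : Fˣ, chi F (x : F)⁻¹ = ∑ x : Fˣ, chi F (x : F) := by
    refine Fintype.sum_equiv (Equiv.inv Fˣ) _ _ fun x => ?_
    show _ = chi F ((x⁻¹ : Fˣ) : F)
    rw [Units.val_inv_eq_inv_val]
  have h3 : ∑ x : F, chi F x = ∑ x : Fˣ, chi F (x : F) + chi F 0 := by
    rw [← Finset.sum_filter_add_sum_filter_not univ (fun x : F => x ≠ 0)]
    congr 1
    · rw [Finset.sum_subtype (univ.filter fun x : F => x ≠ 0) (p := fun x : F => x ≠ 0)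
        (by simp) (fun x : F => chi F x)]
      symm
      exact Fintype.sum_equiv unitsEquivNeZero _ _ fun x => rfl
    · have : (univ.filter fun x : F => ¬ x ≠ 0) = {0} := by
        ext x
        simp
      rw [this, Finset.sum_singleton]
  rw [h2]
  rw [h1, AddChar.map_zero_eq_one] at h3
  linear_combination -h3

/-- the right side as a sum of values of `G`. -/
theorem right_eq (n k : ℕ) [CharP F 2] (hn : Odd n) (hF : Fintype.card F = 2 ^ n) (hk1 : 1 ≤ k)
    (hk : Nat.Coprime k n) :
    ∑ v : Fˣ, chi F (((v : F) ^ 2 ^ k + 1) * (v : F) ^ 2 ^ k /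
      ((v : F) ^ 2 ^ k + v) ^ (2 ^ k + 1)) =
        ∑ x : Fˣ, chi F (x : F)⁻¹ * Gf F (x * iterateFrobeniusEquiv F 2 k x) := by
  rw [Pool.Agent.V7H24.BS.t_FOU F n k hn hF hk1 hk]
  have h1 : ∀ x : Fˣ, chi F (x : F)⁻¹ * (Nk F k (x * (x : F) ^ 2 ^ k) : ℂ) =
      2 * chi F (x : F)⁻¹ + chi F (x : F)⁻¹ * Gf F (x * iterateFrobeniusEquiv F 2 k x) := by
    intro x
    rw [Pool.Agent.V7H66.BS.t_CNT F n k hn hF hk1 hk _
      (mul_ne_zero x.ne_zero (pow_ne_zero _ x.ne_zero)), iterateFrobeniusEquiv_def]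
    ring
  rw [Finset.sum_congr rfl fun x _ => h1 x, Finset.sum_add_distrib, ← Finset.mul_sum, sum_inv]
  ring

/-- **Q2 holds**: let `n` be odd, `F` a field with `2 ^ n` elements and `k ≥ 1` coprime to `n`. Then
`∑_{x ≠ 0} (-1)^{Tr(x + x⁻¹)} = ∑_{v ≠ 0} (-1)^{Tr(R_k(v))}`, where
`R_k(v) = (v^{2^k} + 1) v^{2^k} / (v^{2^k} + v)^{2^k+1}` and `R_k(1) = 0 / 0 = 0`. -/
theorem result (F : Type) [Field F] [Fintype F] [DecidableEq F] [Algebra (ZMod 2) F] (n k : ℕ)
    (hn : Odd n) (hF : Fintype.card F = 2 ^ n) (hk1 : 1 ≤ k) (hk : Nat.Coprime k n) :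
    ∑ x : Fˣ, (-1 : ℤ) ^ (Algebra.trace (ZMod 2) F ((x : F) + (x : F)⁻¹)).val =
      ∑ v : Fˣ, (-1 : ℤ) ^ (Algebra.trace (ZMod 2) F (((v : F) ^ 2 ^ k + 1) * (v : F) ^ 2 ^ k /
        ((v : F) ^ 2 ^ k + v) ^ (2 ^ k + 1))).val := by
  have : CharP F 2 := charP_of_injective_algebraMap (algebraMap (ZMod 2) F).injective 2
  have hG : GData (chi F) (Gf F) := Pool.Agent.V7H58.BS.t_GD F n hn hF
  have h1 := main (chi F) (Gf F) chi_ne_one (chi_one n hn hF) chi_sq hG
    (iterateFrobeniusEquiv F 2 k) (iterateFrobeniusEquiv F 2 1) (chi_equiv _) (chi_equiv _)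
    (G_equiv hG k) (G_equiv hG 1) (hpi n k hF hk)
  rw [← right_eq n k hn hF hk1 hk, ← right_eq n 1 hn hF le_rfl (Nat.coprime_one_left n),
    Pool.Agent.V7H34.BS.t_ONE F n hn hF] at h1
  simp only [chi_apply] at h1
  exact_mod_cast h1.symm

end Pool.Agent.Results.MP_2c585b_nt.KloostermanIdentityH85
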